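import Pool.Agent.FS.HalvedCubes.Loc
import Pool.Agent.Lib.MP_972ec5_co.Elem

/-! The voltage cover of the halved cube complex and its uniform Poincare inequality. -/

namespace Pool.Agent.FS.HalvedCubes

open Pool.Agent.Lib.MP_972ec5_co SimpleGraph Finset

section
variable {α β : Type} [Fintype α] [Fintype β]

lemma sum_inj {π : α → β} (hπ : Function.Injective π) (h : β → ℝ) (h0 : ∀ b, 0 ≤ h b) :
    ∑ a, h (π a) ≤ ∑ b, h b := by
  classical
  rw [← sum_image (s := univ) (g := π) (f := h) hπ.injOn]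
  exact sum_le_sum_of_subset_of_nonneg (subset_univ _) fun b _ _ => h0 b

lemma sum_tri (f g h : α → ℝ) :
    ∑ a, (f a - h a) ^ 2 ≤ 2 * ∑ a, (f a - g a) ^ 2 + 2 * ∑ a, (g a - h a) ^ 2 := by
  rw [mul_sum, mul_sum, ← sum_add_distrib]
  exact sum_le_sum fun a _ => by nlinarith [sq_nonneg (f a - 2 * g a + h a)]

end

variable {W V : Type} [DecidableEq W] {K : SimpleGraph W}

namespace Sys

variable (S : Sys K V)

lemma τ_inj (s t : W) : Function.Injective (S.τ s t) := fun v v' h => by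
  have := congrArg (S.τ t s) h
  rwa [S.comp, S.comp, S.self, S.self] at this

def run (l : List (W × W)) (v : V) : V := l.foldr (fun p x => S.τ p.1 p.2 x) v

lemma run_cons (p : W × W) (l : List (W × W)) (v : V) :
    S.run (p :: l) v = S.τ p.1 p.2 (S.run l v) := rfl

lemma run_append (l l' : List (W × W)) (v : V) : S.run (l ++ l') v = S.run l (S.run l' v) :=
  List.foldr_append

lemma run_inj (l : List (W × W)) : Function.Injective (S.run l) := by
  induction l with
  | nil => exact fun _ _ h => h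
  | cons p l ih => exact fun _ _ h => ih (S.τ_inj _ _ h)

variable [Fintype V] (F : V → ℝ)

lemma d_adj {s t : W} (h : K.Adj s t) : ∑ v, (F (S.τ s t v) - F v) ^ 2 ≤ En S.G F := by
  classical
  unfold En
  refine sum_le_sum fun v _ => ?_
  refine le_trans ?_ (single_le_sum
    (f := fun y => if S.G.Adj v y then (F v - F y) ^ 2 else 0)
    (fun y _ => by split_ifs <;> positivity) (mem_univ (S.τ s t v)))
  rw [if_pos (S.adj_τ h v)]
  exact le_of_eq (by ring)

lemma d_walk {s u : W} (w : K.Walk s u) :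
    ∑ v, (F (S.τ s u v) - F v) ^ 2 ≤ 4 ^ w.length * En S.G F := by
  have e0 := En_nonneg S.G F
  induction w with
  | nil => simpa [S.self] using e0
  | @cons s t u h w ih =>
    have h1 := sum_tri (fun v => F (S.τ s u v)) (fun v => F (S.τ t u v)) F
    have h2 := (sum_inj (S.τ_inj t u) (fun v => (F (S.τ s t v) - F v) ^ 2)
      fun _ => sq_nonneg _).trans (S.d_adj F h)
    simp only [S.comp] at h2
    have h3 : (1 : ℝ) ≤ 4 ^ w.length := one_le_pow₀ (by norm_num)
    rw [Walk.length_cons, pow_succ]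
    nlinarith

lemma d_any [Fintype W] (hK : K.Preconnected) (s u : W) :
    ∑ v, (F (S.τ s u v) - F v) ^ 2 ≤ 4 ^ Fintype.card W * En S.G F := by
  obtain ⟨w⟩ := hK s u
  refine (S.d_walk F (w.toPath : K.Walk s u)).trans
    (mul_le_mul_of_nonneg_right (pow_le_pow_right₀ (by norm_num) w.toPath.2.length_lt.le)
      (En_nonneg _ _))

lemma d_run [Fintype W] (hK : K.Preconnected) (l : List (W × W)) :
    ∑ v, (F (S.run l v) - F v) ^ 2 ≤ 4 ^ l.length * (4 ^ Fintype.card W * En S.G F) := by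
  have e0 : 0 ≤ 4 ^ Fintype.card W * En S.G F := mul_nonneg (by positivity) (En_nonneg _ _)
  induction l with
  | nil => simpa [run] using e0
  | cons p l ih =>
    have h1 := sum_tri (fun v => F (S.run (p :: l) v)) (fun v => F (S.run l v)) F
    have h2 := (sum_inj (S.run_inj l) (fun v => (F (S.τ p.1 p.2 v) - F v) ^ 2)
      fun _ => sq_nonneg _).trans (S.d_any F hK p.1 p.2)
    simp only [← S.run_cons] at h2
    have h3 : (1 : ℝ) ≤ 4 ^ l.length := one_le_pow₀ (by norm_num)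
    rw [List.length_cons, pow_succ]
    nlinarith

end Sys

def vec (l : List (W × W)) : W → ZMod 2 := l.foldr (fun p a => a + (ev p.1 + ev p.2)) 0

/-- The even part of the cube. -/
def A0 (W : Type) [DecidableEq W] : Type := {a : W → ZMod 2 // ∃ l, a = vec l}

instance [Finite W] : Finite (A0 W) := inferInstanceAs (Finite {a : W → ZMod 2 // ∃ l, a = vec l})

def zero0 : A0 W := ⟨0, [], rfl⟩

variable {Λ : Type} [Group Λ]

/-- The voltage: only the generator `y` carries one, and it depends on the coordinates `x`, `z`. -/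
def ph (x y z : W) (g : ZMod 2 → ZMod 2 → Λ) (w : W) (a : W → ZMod 2) : Λ :=
  if w = y then (if a y = 0 then g (a x) (a z) else (g (a x) (a z))⁻¹) else 1

lemma ph_one {x y z : W} {g : ZMod 2 → ZMod 2 → Λ} {w : W} (h : w ≠ y) (a : W → ZMod 2) :
    ph x y z g w a = 1 := if_neg h

lemma ph_inv {x y z : W} {g : ZMod 2 → ZMod 2 → Λ} (hx : x ≠ y) (hz : z ≠ y) (w : W)
    (a : W → ZMod 2) : ph x y z g w (a + ev w) * ph x y z g w a = 1 := by
  by_cases h : w = y
  · subst h
    have h2 : ∀ x : ZMod 2, x + 1 = 0 ↔ ¬ x = 0 := by decide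
    simp only [ph, Pi.add_apply, ev, if_neg hx, if_neg hz, add_zero, if_true, h2]
    split_ifs <;> simp
  · simp [ph_one h]

lemma ph_far {x y z : W} {g : ZMod 2 → ZMod 2 → Λ} (nx : ¬ K.Adj y x) (nz : ¬ K.Adj y z) {w t : W}
    (h : K.Adj w t) (a : W → ZMod 2) : ph x y z g w (a + ev t) = ph x y z g w a := by
  by_cases hw : w = y
  · subst hw
    have h1 : x ≠ t := fun e => nx (by rw [e]; exact h)
    have h2 : z ≠ t := fun e => nz (by rw [e]; exact h)
    simp [ph, ev, h1, h2, h.ne]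
  · rw [ph_one hw, ph_one hw]

/-- The cover of the halved cube complex with voltages in `Λ`. -/
def cov (K : SimpleGraph W) {x y z : W} (g : ZMod 2 → ZMod 2 → Λ) (hx : x ≠ y) (hz : z ≠ y)
    (nx : ¬ K.Adj y x) (nz : ¬ K.Adj y z) : Sys K (A0 W × Λ) where
  τ s t q := (⟨q.1.1 + (ev s + ev t), by
      obtain ⟨l, hl⟩ := q.1.2
      exact ⟨(s, t) :: l, by rw [hl]; rfl⟩⟩,
    ph x y z g s (q.1.1 + ev t) * ph x y z g t q.1.1 * q.2)
  π q := q.1.1
  hπ _ _ _ := rfl
  comp s t u q := by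
    have e1 : q.1.1 + (ev t + ev u) + ev t = q.1.1 + ev u := by
      rw [add_comm (ev t), add_assoc, add_assoc, two0, add_zero]
    have e2 : q.1.1 + (ev t + ev u) = q.1.1 + ev u + ev t := by abel
    refine Prod.ext (Subtype.ext ?_) ?_
    · change q.1.1 + (ev t + ev u) + (ev s + ev t) = q.1.1 + (ev s + ev u)
      rw [show q.1.1 + (ev t + ev u) + (ev s + ev t) = q.1.1 + (ev s + ev u) + (ev t + ev t) by abel,
        two0, add_zero]
    · change ph x y z g s (q.1.1 + (ev t + ev u) + ev t) * ph x y z g t (q.1.1 + (ev t + ev u)) *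
        (ph x y z g t (q.1.1 + ev u) * ph x y z g u q.1.1 * q.2) =
          ph x y z g s (q.1.1 + ev u) * ph x y z g u q.1.1 * q.2
      have e3 := ph_inv (g := g) hx hz t (q.1.1 + ev u)
      rw [e1, e2, mul_assoc, mul_assoc (ph x y z g t _),
        ← mul_assoc (ph x y z g t (_ + ev u + ev t)), e3, one_mul, mul_assoc]
  self s q := by
    refine Prod.ext (Subtype.ext ?_) ?_
    · change q.1.1 + (ev s + ev s) = q.1.1
      rw [two0, add_zero]
    · change ph x y z g s (q.1.1 + ev s) * ph x y z g s q.1.1 * q.2 = q.2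
      rw [ph_inv hx hz, one_mul]
  comm s t q h := by
    refine Prod.ext (Subtype.ext ?_) ?_
    · change q.1.1 + (ev s + ev t) = q.1.1 + (ev t + ev s)
      rw [add_comm (ev s)]
    · change ph x y z g s (q.1.1 + ev t) * ph x y z g t q.1.1 * q.2 =
        ph x y z g t (q.1.1 + ev s) * ph x y z g s q.1.1 * q.2
      rw [ph_far nx nz h, ph_far nx nz h.symm]
      by_cases e : s = y
      · simp [ph_one (w := t) (e ▸ h.ne')]
      · simp [ph_one e]

section
variable {x y z : W} {g : ZMod 2 → ZMod 2 → Λ} {hx : x ≠ y} {hz : z ≠ y}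
  {nx : ¬ K.Adj y x} {nz : ¬ K.Adj y z}

lemma cov_run (l : List (W × W)) : ∃ γ : Λ, ∀ ξ,
    (cov K g hx hz nx nz).run l (zero0, ξ) = (⟨vec l, l, rfl⟩, γ * ξ) := by
  induction l with
  | nil => exact ⟨1, fun ξ => by rw [one_mul]; rfl⟩
  | cons p l ih =>
    obtain ⟨γ, h⟩ := ih
    refine ⟨ph x y z g p.1 (vec l + ev p.2) * ph x y z g p.2 (vec l) * γ, fun ξ => ?_⟩
    rw [Sys.run_cons, h, mul_assoc _ γ]
    rfl

lemma loop_x (hxz : x ≠ z) (h0 : g 0 0 = 1) (ξ : Λ) :
    (cov K g hx hz nx nz).run [(y, x), (y, x)] (zero0, ξ) = (zero0, g 1 0 * ξ) := by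
  refine Prod.ext (Subtype.ext ?_) ?_
  · change (0 : W → ZMod 2) + (ev y + ev x) + (ev y + ev x) = 0
    rw [zero_add, two0]
  · change ph x y z g y (0 + (ev y + ev x) + ev x) * ph x y z g x (0 + (ev y + ev x)) *
      (ph x y z g y (0 + ev x) * ph x y z g x 0 * ξ) = g 1 0 * ξ
    rw [zero_add, add_assoc, two0, add_zero, zero_add]
    simp [ph, ev, hx, hz, hx.symm, hxz.symm, h0]

lemma loop_z (hxz : x ≠ z) (h0 : g 0 0 = 1) (ξ : Λ) :
    (cov K g hx hz nx nz).run [(y, z), (y, z)] (zero0, ξ) = (zero0, g 0 1 * ξ) := by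
  refine Prod.ext (Subtype.ext ?_) ?_
  · change (0 : W → ZMod 2) + (ev y + ev z) + (ev y + ev z) = 0
    rw [zero_add, two0]
  · change ph x y z g y (0 + (ev y + ev z) + ev z) * ph x y z g z (0 + (ev y + ev z)) *
      (ph x y z g y (0 + ev z) * ph x y z g z 0 * ξ) = g 0 1 * ξ
    rw [zero_add, add_assoc, two0, add_zero, zero_add]
    simp [ph, ev, hx, hz, hz.symm, hxz, h0]

lemma loop_xz (hxz : x ≠ z) (h0 : g 0 0 = 1) (ξ : Λ) :
    (cov K g hx hz nx nz).run [(y, z), (x, y), (z, x)] (zero0, ξ) = (zero0, g 1 1 * ξ) := by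
  have e1 : (0 : W → ZMod 2) + (ev z + ev x) + (ev x + ev y) + ev z = ev y := by
    rw [show (0 : W → ZMod 2) + (ev z + ev x) + (ev x + ev y) + ev z =
      ev y + (ev x + ev z + (ev x + ev z)) by abel, two0, add_zero]
  refine Prod.ext (Subtype.ext ?_) ?_
  · change (0 : W → ZMod 2) + (ev z + ev x) + (ev x + ev y) + (ev y + ev z) = 0
    rw [add_comm (ev y), ← add_assoc, e1, two0]
  · change ph x y z g y (0 + (ev z + ev x) + (ev x + ev y) + ev z) *
      ph x y z g z (0 + (ev z + ev x) + (ev x + ev y)) *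
      (ph x y z g x (0 + (ev z + ev x) + ev y) * ph x y z g y (0 + (ev z + ev x)) *
        (ph x y z g z (0 + ev x) * ph x y z g x 0 * ξ)) = g 1 1 * ξ
    rw [e1]
    simp [ph, ev, hx, hz, hx.symm, hz.symm, hxz, hxz.symm, h0]

end

lemma run_pow (S : Sys K (A0 W × Λ)) {l : List (W × W)} {γ : Λ}
    (h : ∀ ξ, S.run l (zero0, ξ) = (zero0, γ * ξ)) (m : ℕ) :
    ∃ l' : List (W × W), l'.length = m * l.length ∧
      ∀ ξ, S.run l' (zero0, ξ) = (zero0, γ ^ m * ξ) := by
  induction m with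
  | zero => exact ⟨[], by simp, fun ξ => by rw [pow_zero, one_mul]; rfl⟩
  | succ m ih =>
    obtain ⟨l', h1, h2⟩ := ih
    exact ⟨l ++ l', by rw [List.length_append, h1]; ring,
      fun ξ => by rw [S.run_append, h2, h, pow_succ', mul_assoc]⟩

instance : Fact (Nat.Prime 17) := ⟨by norm_num⟩

theorem expanders [Finite W] (hK : K.Preconnected) {x y z : W} (hx : x ≠ y) (hz : z ≠ y)
    (hxz : x ≠ z) (nx : ¬ K.Adj y x) (nz : ¬ K.Adj y z) :
    ∃ C : ℝ, 0 < C ∧ ∀ n : ℕ, ∃ (V : Type) (_ : Fintype V) (S : Sys K V),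
      n ≤ Fintype.card V ∧ Poin S.G C := by
  classical
  let _ := Fintype.ofFinite W
  let _ := Fintype.ofFinite (A0 W)
  choose wd hwd using fun a : A0 W => a.2
  let B : ℝ := 4 ^ Fintype.card W
  let K1 : ℝ := 2 * ∑ _j : Fin 3, ∑ _i : ZMod 17, 4 ^ 51
  have hK1 : 0 < K1 := by
    simp only [K1, sum_const, card_univ, nsmul_eq_mul]
    positivity
  have : Nonempty (A0 W) := ⟨zero0⟩
  refine ⟨2 * ∑ a : A0 W, (2 * 4 ^ (wd a).length + 2 * K1) * B,
    mul_pos two_pos (sum_pos (fun _ _ => by positivity) univ_nonempty), fun n => ?_⟩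
  obtain ⟨Λ, _, _, X, hcard, hX, hP⟩ := exists_group 17 (by norm_num) n
  let g : ZMod 2 → ZMod 2 → Λ := fun i k =>
    if i = 0 then (if k = 0 then 1 else X 1 1) else (if k = 0 then X 0 1 else X 2 1)
  set S := cov K g hx hz nx nz
  have hl : ∀ j, ∃ l : List (W × W), l.length ≤ 3 ∧
      ∀ ξ, S.run l (zero0, ξ) = (zero0, X j 1 * ξ) := fun j => by
    fin_cases j
    · exact ⟨_, by simp, loop_x hxz rfl⟩
    · exact ⟨_, by simp, loop_z hxz rfl⟩
    · exact ⟨_, by simp, loop_xz hxz rfl⟩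
  refine ⟨A0 W × Λ, inferInstance, S, hcard.trans (Fintype.card_le_of_injective
    (fun ξ : Λ => ((zero0 : A0 W), ξ)) fun _ _ h => (Prod.mk.inj h).2), fun F => ?_⟩
  have e0 : 0 ≤ B * En S.G F := mul_nonneg (by positivity) (En_nonneg _ _)
  have hb : ∀ l, ∑ ξ : Λ, (F (S.run l (zero0, ξ)) - F (zero0, ξ)) ^ 2 ≤
      4 ^ l.length * (B * En S.G F) := fun l =>
    (sum_inj (π := fun ξ : Λ => ((zero0 : A0 W), ξ)) (fun _ _ h => (Prod.mk.inj h).2)
      (fun v => (F (S.run l v) - F v) ^ 2) fun _ => sq_nonneg _).trans (S.d_run F hK l)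
  have hxn : ∀ j (m : ℕ), X j 1 ^ m = X j m := fun j m => by
    induction m with
    | zero => simp [(hX j).zero]
    | succ m ih => rw [pow_succ, ih, Nat.cast_succ, hX j]
  obtain ⟨μ, hμ⟩ := hP fun ξ => F (zero0, ξ)
  have a1 : ∑ ξ, (F (zero0, ξ) - μ) ^ 2 ≤ K1 * (B * En S.G F) := by
    refine hμ.trans ?_
    simp only [K1, mul_assoc, sum_mul]
    refine mul_le_mul_of_nonneg_left (sum_le_sum fun j _ => sum_le_sum fun i _ => ?_) (by norm_num)
    obtain ⟨l, l3, hl⟩ := hl j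
    obtain ⟨l', hl', b2⟩ := run_pow S hl i.val
    have b1 := hb l'
    simp only [b2, hxn, ZMod.natCast_zmod_val] at b1
    refine b1.trans (mul_le_mul_of_nonneg_right (pow_le_pow_right₀ (by norm_num) ?_) e0)
    have := Nat.mul_le_mul (ZMod.val_lt i).le l3
    omega
  have a2 : ∑ q, (F q - μ) ^ 2 ≤
      (∑ a : A0 W, (2 * 4 ^ (wd a).length + 2 * K1) * B) * En S.G F := by
    rw [Fintype.sum_prod_type, sum_mul]
    refine sum_le_sum fun a _ => ?_
    obtain ⟨γ, hγ⟩ := cov_run (g := g) (hx := hx) (hz := hz) (nx := nx) (nz := nz) (wd a)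
    have b0 : ∀ ξ, S.run (wd a) (zero0, ξ) = (a, γ * ξ) := fun ξ =>
      (hγ ξ).trans (Prod.ext (Subtype.ext (hwd a).symm) rfl)
    have b1 := hb (wd a)
    have b2 := sum_tri (fun ξ => F (S.run (wd a) (zero0, ξ))) (fun ξ => F (zero0, ξ)) fun _ => μ
    rw [← shift_sum γ fun ξ => (F (a, ξ) - μ) ^ 2]
    simp only [← b0]
    nlinarith
  have a4 := Var_eq fun v => F v - μ
  simp only [Var, sub_sub_sub_cancel_right, dotProduct, ← sq] at a4
  have a5 := mul_le_mul_of_nonneg_left a2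
    (by positivity : (0 : ℝ) ≤ 2 * Fintype.card (A0 W × Λ))
  unfold Var
  nlinarith [sq_nonneg (∑ v, (F v - μ))]

end Pool.Agent.FS.HalvedCubes
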