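import Pool.Agent.Lib.MP_972ec5_co.Spec

/-! Links in the halved cube complex over a graph `K`. -/

namespace Pool.Agent.FS.HalvedCubes

open Pool.Agent.Lib.MP_972ec5_co SimpleGraph

variable {W V : Type} [DecidableEq W]

def ev (s : W) : W → ZMod 2 := fun z => if z = s then 1 else 0

omit [DecidableEq W] in
lemma two0 (a : W → ZMod 2) : a + a = 0 := by
  ext z
  exact CharTwo.add_self_eq_zero _

lemma hit {z x y : W} (h : (1 : ZMod 2) = (ev x + ev y) z) : z = x ∨ z = y := by
  by_contra hc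
  push Not at hc
  simp [ev, hc.1, hc.2] at h

lemma pair {t w x y : W} (h : ev t + ev w = ev x + ev y) (htw : t ≠ w) :
    (t = x ∧ w = y) ∨ (t = y ∧ w = x) := by
  have h1 : t = x ∨ t = y := hit (by rw [← h]; simp [ev, htw])
  have h2 : w = x ∨ w = y := hit (by rw [← h]; simp [ev, htw.symm])
  rcases h1 with rfl | rfl <;> rcases h2 with rfl | rfl <;> simp_all

lemma share {s t u w x y : W} (h : ev s + ev t + (ev u + ev w) = ev x + ev y) (hst : s ≠ t)
    (huw : u ≠ w) : s = u ∨ s = w ∨ t = u ∨ t = w := by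
  by_contra hc
  push Not at hc
  obtain ⟨a, b, c, d⟩ := hc
  have h1 : s = x ∨ s = y := hit (by rw [← h]; simp [ev, hst, a, b])
  have h2 : t = x ∨ t = y := hit (by rw [← h]; simp [ev, hst.symm, c, d])
  have h3 : u = x ∨ u = y := hit (by rw [← h]; simp [ev, huw, a.symm, c.symm])
  rcases h1 with rfl | rfl <;> rcases h2 with rfl | rfl <;> rcases h3 with rfl | rfl <;> simp_all

/-- Products of two generators of the right-angled Coxeter group of `K`, acting on `V`. -/
structure Sys (K : SimpleGraph W) (V : Type) where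
  τ : W → W → V → V
  π : V → W → ZMod 2
  hπ : ∀ s t v, π (τ s t v) = π v + (ev s + ev t)
  comp : ∀ s t u v, τ s t (τ t u v) = τ s u v
  self : ∀ s v, τ s s v = v
  comm : ∀ s t v, K.Adj s t → τ s t v = τ t s v

lemma Nice.param {U : Type} {H : SimpleGraph U} {M d : ℕ} (h : Nice H M d) (G : SimpleGraph V)
    (T : Set V) (f : U → V) (hf : Function.Injective f) (hr : Set.range f = T)
    (ha : ∀ a b, G.Adj (f a) (f b) ↔ H.Adj a b) : Nice (G.induce T) M d := by
  subst hr
  exact h.iso ⟨Equiv.ofInjective f hf, fun {a b} => ha a b⟩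

lemma nice_prism {U : Type} [Finite U] {H : SimpleGraph U} {M d : ℕ} (h : Nice H M d) :
    Nice ((⊤ : SimpleGraph Bool) □ H) (2 * M) (d + 1) := by
  refine ⟨Preconnected.boxProd preconnected_top h.1, fun p => ?_, ?_⟩
  · obtain ⟨b, r⟩ := p
    have : (((⊤ : SimpleGraph Bool) □ H).neighborSet (b, r)) =
        insert (!b, r) ((fun r' => (b, r')) '' H.neighborSet r) := by
      ext ⟨b', r'⟩
      cases b <;> cases b' <;> simp [boxProd_adj, eq_comm]
    rw [this, Set.ncard_insert_of_notMem (by cases b <;> simp),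
      Set.ncard_image_of_injective _ (fun _ _ h => (Prod.mk.inj h).2), h.2.1 r]
  · rw [Nat.card_prod, h.2.2]
    simp

lemma ind_ncard (G : SimpleGraph V) (v : V) (x : G.neighborSet v) :
    ((G.induce (G.neighborSet v)).neighborSet x).ncard = Nat.card (G.commonNeighbors v x) := by
  rw [← Set.ncard_image_of_injective _ Subtype.val_injective, Nat.card_coe_set_eq]
  congr 1
  ext w
  simp [mem_commonNeighbors]
  tauto

namespace Sys

variable {K : SimpleGraph W} (S : Sys K V)

lemma eqv {s t x y : W} {v : V} (h : S.τ s t v = S.τ x y v) (hst : s ≠ t) :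
    (s = x ∧ t = y) ∨ (s = y ∧ t = x) := by
  have := congrArg S.π h
  rw [S.hπ, S.hπ, add_right_inj] at this
  exact pair this hst

def G : SimpleGraph V where
  Adj v v' := ∃ s t, K.Adj s t ∧ v' = S.τ s t v
  symm := ⟨fun v v' ⟨s, t, h, e⟩ => ⟨t, s, h.symm, by rw [e, S.comp, S.self]⟩⟩
  loopless := ⟨fun v ⟨s, t, h, e⟩ => by
    have := S.eqv (e.symm.trans (S.self s v).symm) h.ne
    exact h.ne (by tauto)⟩

lemma adj_τ {s t : W} (h : K.Adj s t) (v : V) : S.G.Adj v (S.τ s t v) := ⟨s, t, h, rfl⟩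

lemma adj_vec {s t u w : W} {v : V} (h : S.G.Adj (S.τ s t v) (S.τ u w v)) :
    ∃ x y, K.Adj x y ∧ ev s + ev t + (ev u + ev w) = ev x + ev y := by
  obtain ⟨x, y, hxy, e⟩ := h
  refine ⟨x, y, hxy, ?_⟩
  have := congrArg S.π e
  rw [S.hπ, S.hπ, S.hπ, add_assoc, add_right_inj] at this
  rw [this, ← add_assoc, two0, zero_add]

lemma adj_pq {p q r : W} (hq : K.Adj p q) (hr : K.Adj p r) (v : V) :
    S.G.Adj (S.τ p q v) (S.τ p r v) ↔ K.Adj q r := by
  refine ⟨fun h => ?_, fun h => ⟨r, q, h.symm, by rw [S.comm p q v hq, S.comp, S.comm p r v hr]⟩⟩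
  obtain ⟨x, y, hxy, e⟩ := S.adj_vec h
  rw [add_add_add_comm, two0, zero_add] at e
  rcases pair e.symm hxy.ne with ⟨rfl, rfl⟩ | ⟨rfl, rfl⟩
  exacts [hxy, hxy.symm]

lemma adj_cases {s t u w : W} (h1 : K.Adj s t) (h2 : K.Adj u w) {v : V}
    (h : S.G.Adj (S.τ s t v) (S.τ u w v)) : s = u ∨ s = w ∨ t = u ∨ t = w := by
  obtain ⟨x, y, _, e⟩ := S.adj_vec h
  exact share e h1.ne h2.ne

lemma nice_edge [Finite W] {b c : ℕ}
    (hc : ∀ s t, K.Adj s t → Nice (K.induce (K.commonNeighbors s t)) b c) {v x : V}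
    (h : S.G.Adj v x) : Nice (S.G.induce (S.G.commonNeighbors v x)) (2 * b) (c + 1) := by
  obtain ⟨s, t, hst, rfl⟩ := h
  have hs : ∀ (i : Bool) (r : K.commonNeighbors s t), K.Adj (cond i t s) r := fun i r => by
    cases i
    exacts [r.2.1, r.2.2]
  refine Nice.param (nice_prism (hc s t hst)) S.G _ (fun p => S.τ (cond p.1 t s) p.2 v) ?_ ?_ ?_
  · rintro ⟨i, r⟩ ⟨j, r'⟩ e
    rcases S.eqv e (hs i r).ne with ⟨e1, e2⟩ | ⟨e1, _⟩
    · refine Prod.ext ?_ (Subtype.ext e2)
      cases i <;> cases j <;> first | rfl | exact absurd e1 hst.ne | exact absurd e1 hst.ne'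
    · exact absurd e1 (hs i r').ne
  · ext y
    constructor
    · rintro ⟨⟨i, r⟩, rfl⟩
      refine ⟨S.adj_τ (hs i r) v, ?_⟩
      cases i
      · exact (S.adj_pq hst r.2.1 v).2 r.2.2
      · rw [S.comm s t v hst]
        exact (S.adj_pq hst.symm r.2.2 v).2 r.2.1
    · rintro ⟨⟨u, w, huw, rfl⟩, h2⟩
      have h3 : S.G.Adj (S.τ s t v) (S.τ u w v) := h2
      rcases S.adj_cases hst huw h3 with rfl | rfl | rfl | rfl
      · exact ⟨(false, ⟨w, huw, (S.adj_pq hst huw v).1 h3⟩), rfl⟩
      · rw [S.comm u s v huw] at h3 ⊢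
        exact ⟨(false, ⟨u, huw.symm, (S.adj_pq hst huw.symm v).1 h3⟩), rfl⟩
      · rw [S.comm s t v hst] at h3
        exact ⟨(true, ⟨w, (S.adj_pq hst.symm huw v).1 h3, huw⟩), rfl⟩
      · rw [S.comm s t v hst, S.comm u t v huw] at h3
        rw [S.comm u t v huw]
        exact ⟨(true, ⟨u, (S.adj_pq hst.symm huw.symm v).1 h3, huw.symm⟩), rfl⟩
  · rintro ⟨i, r⟩ ⟨j, r'⟩
    by_cases hij : i = j
    · subst hij
      rw [S.adj_pq (hs i r) (hs i r') v]
      simp [boxProd_adj]
    · have hne : cond i t s ≠ cond j t s := by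
        cases i <;> cases j <;> first | exact absurd rfl hij | exact hst.ne | exact hst.ne'
      have hadj : K.Adj (cond i t s) (cond j t s) := by
        cases i <;> cases j <;> first | exact absurd rfl hij | exact hst | exact hst.symm
      simp only [boxProd_adj, top_adj, ne_eq, hij, not_false_eq_true, true_and, and_false, or_false]
      refine ⟨fun h => ?_, fun h => ?_⟩
      · rcases S.adj_cases (hs i r) (hs j r') h with e | e | e | e
        · exact absurd e hne
        · exact absurd e (hs i r').ne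
        · exact absurd e (hs j r).ne'
        · exact Subtype.ext e
      · subst h
        rw [S.comm _ _ v (hs i r), S.comm _ _ v (hs j r)]
        exact (S.adj_pq (hs i r).symm (hs j r).symm v).2 hadj

lemma deg (v : V) : (S.G.neighborSet v).ncard = K.edgeSet.ncard := by
  classical
  let f : Sym2 W → V := Sym2.lift ⟨fun s t => if K.Adj s t then S.τ s t v else v, fun s t => by
    by_cases h : K.Adj s t
    · simp only [if_pos h, if_pos h.symm, S.comm s t v h]
    · simp only [if_neg h, if_neg (fun h' : K.Adj t s => h h'.symm)]⟩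
  have hf : ∀ s t, K.Adj s t → f s(s, t) = S.τ s t v := fun s t h => by simp [f, h]
  have h1 : S.G.neighborSet v = f '' K.edgeSet := by
    ext y
    constructor
    · rintro ⟨s, t, h, rfl⟩
      exact ⟨s(s, t), h, hf s t h⟩
    · rintro ⟨z, hz, rfl⟩
      induction z using Sym2.ind with
      | h s t => exact ⟨s, t, hz, hf s t hz⟩
  rw [h1, Set.InjOn.ncard_image]
  intro z hz z' hz' e
  induction z using Sym2.ind with
  | h s t =>
    induction z' using Sym2.ind with
    | h x y =>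
      rw [hf s t hz, hf x y hz'] at e
      rcases S.eqv e (K.ne_of_adj hz) with ⟨rfl, rfl⟩ | ⟨rfl, rfl⟩
      exacts [rfl, Sym2.eq_swap]

lemma link_conn (hK : K.Preconnected) (hb : ∀ p, (K.induce (K.neighborSet p)).Preconnected)
    (v : V) : (S.G.induce (S.G.neighborSet v)).Preconnected := by
  have h1 : ∀ p q r (hq : K.Adj p q) (hr : K.Adj p r),
      (S.G.induce (S.G.neighborSet v)).Reachable ⟨_, S.adj_τ hq v⟩ ⟨_, S.adj_τ hr v⟩ :=
    fun p q r hq hr =>
      Reachable.map (G := K.induce (K.neighborSet p)) (G' := S.G.induce (S.G.neighborSet v))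
        ⟨fun z => ⟨_, S.adj_τ z.2 v⟩, fun {z z'} h => (S.adj_pq z.2 z'.2 v).2 h⟩
        (hb p ⟨q, hq⟩ ⟨r, hr⟩)
  have h2 : ∀ p p' (w : K.Walk p p') q r (hq : K.Adj p q) (hr : K.Adj p' r),
      (S.G.induce (S.G.neighborSet v)).Reachable ⟨_, S.adj_τ hq v⟩ ⟨_, S.adj_τ hr v⟩ := by
    intro p p' w
    induction w with
    | nil => exact fun q r hq hr => h1 _ q r hq hr
    | @cons p m p' h w ih =>
      intro q r hq hr
      refine (h1 p q m hq h).trans ?_
      have := ih p r h.symm hr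
      rwa [show (⟨_, S.adj_τ h.symm v⟩ : S.G.neighborSet v) = ⟨_, S.adj_τ h v⟩ from
        Subtype.ext (S.comm _ _ v h.symm)] at this
  rintro ⟨_, s, t, hst, rfl⟩ ⟨_, u, w, huw, rfl⟩
  obtain ⟨p⟩ := hK s u
  exact h2 s u p t w hst huw

lemma nice_link [Finite W] {b c : ℕ} (hK : K.Preconnected)
    (hb : ∀ p, (K.induce (K.neighborSet p)).Preconnected)
    (hc : ∀ s t, K.Adj s t → Nice (K.induce (K.commonNeighbors s t)) b c) (v : V) :
    Nice (S.G.induce (S.G.neighborSet v)) K.edgeSet.ncard (2 * b) :=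
  ⟨S.link_conn hK hb v, fun x => by rw [ind_ncard, (S.nice_edge hc x.2).2.2],
    by rw [Nat.card_coe_set_eq, S.deg]⟩

end Sys

end Pool.Agent.FS.HalvedCubes
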